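import Mathlib

open Matrix

namespace Pool.Agent.Results.MP_8779dd_gt.KirwanDegreeZero

noncomputable section

/-! Singular cohomology with rational coefficients, from singular cochains. -/

/-- Singular `n`-simplices of `X`. -/
def Simplex (X : Type) [TopologicalSpace X] (n : ℕ) : Type := C(stdSimplex ℝ (Fin (n + 1)), X)

/-- The `i`-th face of a singular `(n+1)`-simplex. -/
def face {X : Type} [TopologicalSpace X] {n : ℕ} (i : Fin (n + 2)) (σ : Simplex X (n + 1)) :
    Simplex X n :=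
  ContinuousMap.comp σ ⟨stdSimplex.map i.succAbove, stdSimplex.continuous_map _⟩

/-- The singular coboundary of a rational cochain. -/
def cobd {X : Type} [TopologicalSpace X] {n : ℕ} (c : Simplex X n → ℚ) (σ : Simplex X (n + 1)) :
    ℚ :=
  ∑ i : Fin (n + 2), (-1) ^ (i : ℕ) * c (face i σ)

/-- Singular cocycles. -/
def IsCocycle {X : Type} [TopologicalSpace X] {n : ℕ} (c : Simplex X n → ℚ) : Prop :=
  ∀ σ, cobd c σ = 0

/-- Two cochains are cohomologous if they differ by a coboundary (in degree `0`: if they are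
equal). -/
def Cohomologous {X : Type} [TopologicalSpace X] : {n : ℕ} → (c c' : Simplex X n → ℚ) → Prop
  | 0, c, c' => c = c'
  | _ + 1, c, c' => ∃ b, ∀ σ, c σ - c' σ = cobd b σ

/-- The singular cohomology `H^n(X; ℚ)`: cocycles modulo coboundaries. -/
def Coh (X : Type) [TopologicalSpace X] (n : ℕ) : Type :=
  Quot fun c c' : {c : Simplex X n → ℚ // IsCocycle c} => Cohomologous c.1 c'.1

lemma pull_cocycle {X Y : Type} [TopologicalSpace X] [TopologicalSpace Y] (f : C(X, Y)) {n : ℕ}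
    {c : Simplex Y n → ℚ} (hc : IsCocycle c) :
    IsCocycle (X := X) fun σ => c (ContinuousMap.comp f σ) :=
  fun σ => hc (ContinuousMap.comp f σ)

lemma pull_cohomologous {X Y : Type} [TopologicalSpace X] [TopologicalSpace Y] (f : C(X, Y)) :
    ∀ {n : ℕ} {c c' : Simplex Y n → ℚ}, Cohomologous c c' →
      Cohomologous (X := X) (fun σ => c (ContinuousMap.comp f σ))
        (fun σ => c' (ContinuousMap.comp f σ))
  | 0, _, _, h => by
    have h' : _ = _ := h
    subst h'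
    exact (rfl : _ = _)
  | _ + 1, _, _, ⟨b, hb⟩ => ⟨fun σ => b (ContinuousMap.comp f σ), fun σ => hb _⟩

/-- The pullback map in singular cohomology. -/
def cohMap {X Y : Type} [TopologicalSpace X] [TopologicalSpace Y] (f : C(X, Y)) (n : ℕ) :
    Coh Y n → Coh X n :=
  Quot.map (fun c => ⟨fun σ => c.1 (ContinuousMap.comp f σ), pull_cocycle f c.2⟩)
    fun _ _ h => pull_cohomologous f h

/-! The Borel construction for a group of unitary matrices. -/

variable {ι : Type} [Fintype ι] [DecidableEq ι]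

/-- The space of injective linear maps `T : ℂ^ι → ℂ^ℕ`, as matrices with rows indexed by `ℕ`, with
the topology of entrywise convergence. It is contractible, the unitary group acts freely on it by
`g • T = T g⁻¹`, and it is a model of the universal bundle. -/
def EU (ι : Type) [Fintype ι] : Type :=
  {T : ℕ → ι → ℂ // ∀ v : ι → ℂ, (∀ n, T n ⬝ᵥ v = 0) → v = 0}

instance : TopologicalSpace (EU ι) := instTopologicalSpaceSubtype

lemma EU_smul_inj (g : Matrix.unitaryGroup ι ℂ) (T : EU ι) (v : ι → ℂ)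
    (h : ∀ n, (T.1 n ᵥ* (g⁻¹).1) ⬝ᵥ v = 0) : v = 0 := by
  have h1 : (g⁻¹).1 *ᵥ v = 0 := T.2 _ fun n => by rw [Matrix.dotProduct_mulVec]; exact h n
  have h2 : g.1 *ᵥ ((g⁻¹).1 *ᵥ v) = v := by
    rw [Matrix.mulVec_mulVec, ← Matrix.UnitaryGroup.mul_val, mul_inv_cancel]
    exact Matrix.one_mulVec v
  rw [← h2, h1, Matrix.mulVec_zero]

/-- `g • T = T g⁻¹`. -/
def actE (g : Matrix.unitaryGroup ι ℂ) (T : EU ι) : EU ι :=
  ⟨fun n => T.1 n ᵥ* (g⁻¹).1, EU_smul_inj g T⟩

/-- The cotangent bundle `T^*A = A × A^*` of `A = ℂ^ι`; covectors are row vectors. -/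
def TA (ι : Type) : Type := (ι → ℂ) × (ι → ℂ)

instance : TopologicalSpace (TA ι) := instTopologicalSpaceProd

/-- The action of the unitary group on `T^*A`: `g • (a, b) = (g a, b g⁻¹)`. -/
def actA (g : Matrix.unitaryGroup ι ℂ) (p : TA ι) : TA ι := (g.1 *ᵥ p.1, p.2 ᵥ* (g⁻¹).1)

/-- The homotopy quotient (Borel construction) `EU ×_G S` of a `G`-invariant subspace `S` of
`T^*A`: the quotient of `EU × S` by the diagonal action of `G`. -/
def Borel (G : Subgroup (Matrix.unitaryGroup ι ℂ)) (S : Set (TA ι)) : Type :=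
  Quot fun p q : EU ι × S => ∃ g ∈ G, q.1 = actE g p.1 ∧ (q.2 : TA ι) = actA g p.2

instance (G : Subgroup (Matrix.unitaryGroup ι ℂ)) (S : Set (TA ι)) :
    TopologicalSpace (Borel G S) := instTopologicalSpaceQuot

lemma incl_continuous (S : Set (TA ι)) :
    Continuous fun p : EU ι × S => ((p.1, ⟨p.2.1, trivial⟩) : EU ι × (Set.univ : Set (TA ι))) :=
  continuous_fst.prodMk ((continuous_subtype_val.comp continuous_snd).subtype_mk _)

/-- The map of Borel constructions induced by the inclusion `S ⊆ T^*A`. -/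
def borelIncl (G : Subgroup (Matrix.unitaryGroup ι ℂ)) (S : Set (TA ι)) :
    C(Borel G S, Borel G Set.univ) where
  toFun := Quot.map (fun p => (p.1, ⟨p.2.1, trivial⟩)) fun _ _ h => h
  continuous_toFun := continuous_quot_lift _ (continuous_quot_mk.comp (incl_continuous S))

/-! Linear hyperkahler reduction. -/

/-- The Lie algebra of `G`, as the set of velocities at `1` of curves in `G` through `1`
(matrices `X` that are derivatives at `0`, entry by entry, of curves in `G`). -/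
def lieAlg (G : Subgroup (Matrix.unitaryGroup ι ℂ)) : Set (Matrix ι ι ℂ) :=
  {X | ∃ γ : ℝ → Matrix.unitaryGroup ι ℂ, (∀ s, γ s ∈ G) ∧ γ 0 = 1 ∧
    ∀ i j, HasDerivAt (fun s => (γ s).1 i j) (X i j) 0}

/-- The real moment map of `T^*A`, evaluated on `X` in the Lie algebra:
`(√-1 / 2) (a^* X a - b X b^*)`. -/
def muR (X : Matrix ι ι ℂ) (p : TA ι) : ℝ :=
  (Complex.I / 2 * (star p.1 ⬝ᵥ (X *ᵥ p.1) - p.2 ⬝ᵥ (X *ᵥ star p.2))).re

/-- The complex moment map of `T^*A`, evaluated on `X` in the Lie algebra: `b X a`. -/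
def muC (X : Matrix ι ι ℂ) (p : TA ι) : ℂ := p.2 ⬝ᵥ (X *ᵥ p.1)

/-- A value `ξ` of the hyperkahler moment map, an element of `𝔤^* ⊗ (ℝ ⊕ ℂ)` given as a function
of `X`, is central if it is fixed by the coadjoint action of `G`. -/
def IsCentral (G : Subgroup (Matrix.unitaryGroup ι ℂ)) (ξ : Matrix ι ι ℂ → ℝ × ℂ) : Prop :=
  (∀ X Y, ξ (X + Y) = ξ X + ξ Y) ∧ (∀ (r : ℝ) (X : Matrix ι ι ℂ), ξ (r • X) = r • ξ X) ∧
    ∀ g ∈ G, ∀ X ∈ lieAlg G, ξ (g.1 * X * (g⁻¹).1) = ξ X

/-- The level set `μ⁻¹(ξ)` of the hyperkahler moment map. -/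
def level (G : Subgroup (Matrix.unitaryGroup ι ℂ)) (ξ : Matrix ι ι ℂ → ℝ × ℂ) : Set (TA ι) :=
  {p | ∀ X ∈ lieAlg G, (muR X p, muC X p) = ξ X}

/-- The hyperkahler Kirwan map in degree `k`: restriction from
`H^k_G(T^*A; ℚ) ≅ H^k(BG; ℚ)` to `H^k_G(μ⁻¹(ξ); ℚ)`. -/
def kirwan (G : Subgroup (Matrix.unitaryGroup ι ℂ)) (ξ : Matrix ι ι ℂ → ℝ × ℂ) (k : ℕ) :
    Coh (Borel G (Set.univ : Set (TA ι))) k → Coh (Borel G (level G ξ)) k :=
  cohMap (borelIncl G (level G ξ)) k

/-! A criterion for failure of surjectivity in degree zero. -/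

lemma pos_iff_of_ne_zero {Y : Type} [TopologicalSpace Y] [PreconnectedSpace Y] (f : Y → ℝ)
    (hf : Continuous f) (hne : ∀ y, f y ≠ 0) (a b : Y) (ha : 0 < f a) : 0 < f b := by
  by_contra hb
  obtain ⟨y, hy⟩ := mem_range_of_exists_le_of_exists_ge hf ⟨b, not_lt.1 hb⟩ ⟨a, ha.le⟩
  exact hne y hy

instance : PreconnectedSpace (stdSimplex ℝ (Fin 2)) :=
  isPreconnected_iff_preconnectedSpace.1 (isPathConnected_stdSimplex (Fin 2)).isConnected.isPreconnected

lemma map_succAbove (i : Fin 2) (s : stdSimplex ℝ (Fin 1)) :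
    stdSimplex.map i.succAbove s = stdSimplex.vertex (S := ℝ) (i.succAbove 0) := by
  have : s = stdSimplex.vertex (S := ℝ) (0 : Fin 1) := Subsingleton.elim _ _
  rw [this, stdSimplex.map_vertex]

lemma not_surjective_zero (G : Subgroup (Matrix.unitaryGroup ι ℂ)) (S : Set (TA ι))
    (N : TA ι → ℝ) (hN : Continuous N) (hinv : ∀ g ∈ G, ∀ p, N (actA g p) = N p)
    (hne : ∀ s ∈ S, N s ≠ 0) (x y : TA ι) (hxS : x ∈ S) (hyS : y ∈ S) (hx : N x < 0)
    (hy : 0 < N y) (γ : C(ℝ, TA ι)) (h0 : γ 0 = x) (h1 : γ 1 = y) (e : EU ι) :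
    ¬ Function.Surjective (cohMap (borelIncl G S) 0) := by
  intro hsurj
  let Nb : Borel G S → ℝ := Quot.lift (fun p : EU ι × S => N p.2) (by
    rintro p q ⟨g, hg, -, h2⟩
    show N p.2 = N q.2
    rw [h2]
    exact (hinv g hg p.2).symm)
  have hNb : Continuous Nb :=
    continuous_quot_lift _ (hN.comp (continuous_subtype_val.comp continuous_snd))
  have hNb0 : ∀ z, Nb z ≠ 0 := by
    intro z
    induction z using Quot.ind with
    | mk p => exact hne p.2 p.2.2
  let c : Simplex (Borel G S) 0 → ℚ :=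
    fun σ => if 0 < Nb ((show C(stdSimplex ℝ (Fin 1), Borel G S) from σ) default) then 1 else 0
  have hc : IsCocycle c := by
    intro τ
    let τ' : C(stdSimplex ℝ (Fin 2), Borel G S) := τ
    have key : c (face (0 : Fin 2) τ) = c (face (1 : Fin 2) τ) := by
      have hcont : Continuous fun t => Nb (τ' t) := hNb.comp τ'.continuous
      have hiff : ∀ a b : stdSimplex ℝ (Fin 2), 0 < Nb (τ' a) → 0 < Nb (τ' b) := fun a b =>
        pos_iff_of_ne_zero (fun t => Nb (τ' t)) hcont (fun t => hNb0 _) a b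
      by_cases h : 0 < Nb (τ' (stdSimplex.map (Fin.succAbove (0 : Fin 2)) default))
      · exact (if_pos h).trans (if_pos (hiff _ _ h)).symm
      · exact (if_neg h).trans (if_neg fun h' => h (hiff _ _ h')).symm
    show ∑ i : Fin (0 + 2), (-1 : ℚ) ^ (i : ℕ) * c (face i τ) = 0
    rw [Fin.sum_univ_two]
    simp only [Fin.val_zero, pow_zero, one_mul, Fin.val_one, pow_one]
    rw [key]
    ring
  obtain ⟨w, hw⟩ := hsurj (Quot.mk _ ⟨c, hc⟩)
  obtain ⟨h, rfl⟩ := Quot.exists_rep w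
  have h3 : (Quot.mk _ ⟨fun σ => h.1 (ContinuousMap.comp (borelIncl G S) σ),
      pull_cocycle (borelIncl G S) h.2⟩ : Coh (Borel G S) 0) = Quot.mk _ ⟨c, hc⟩ := hw
  have h5 : ∀ σ : Simplex (Borel G S) 0, h.1 (ContinuousMap.comp (borelIncl G S) σ) = c σ := by
    let ev : Coh (Borel G S) 0 → (Simplex (Borel G S) 0 → ℚ) :=
      Quot.lift (fun c => c.1) fun _ _ h => h
    intro σ
    exact congrFun (congrArg ev h3) σ
  let pt : (s : TA ι) → s ∈ S → Simplex (Borel G S) 0 := fun s hs =>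
    ContinuousMap.const _ (Quot.mk _ (e, ⟨s, hs⟩))
  let τ : C(stdSimplex ℝ (Fin 2), Borel G (Set.univ : Set (TA ι))) :=
    ⟨fun t => Quot.mk _ (e, ⟨γ (t 1), trivial⟩), by
      refine continuous_quot_mk.comp (continuous_const.prodMk
        ((γ.continuous.comp ?_).subtype_mk _))
      exact (continuous_apply 1).comp continuous_subtype_val⟩
  have hτ := h.2 (show Simplex (Borel G (Set.univ : Set (TA ι))) (0 + 1) from τ)
  have hτ' : ∑ i : Fin (0 + 2), (-1 : ℚ) ^ (i : ℕ) * h.1 (face i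
    (show Simplex (Borel G (Set.univ : Set (TA ι))) (0 + 1) from τ)) = 0 := hτ
  rw [Fin.sum_univ_two] at hτ'
  have f0 : face (0 : Fin 2) (show Simplex (Borel G (Set.univ : Set (TA ι))) (0 + 1) from τ)
      = ContinuousMap.comp (borelIncl G S) (pt y hyS) := by
    apply ContinuousMap.ext
    intro s
    show (Quot.mk _ (e, ⟨γ ((stdSimplex.map (Fin.succAbove (0 : Fin 2)) s) 1), trivial⟩) :
      Borel G (Set.univ : Set (TA ι))) = Quot.mk _ (e, ⟨y, trivial⟩)
    have : (stdSimplex.map (Fin.succAbove (0 : Fin 2)) s) 1 = (1 : ℝ) := by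
      rw [map_succAbove]
      simp
    rw [this]
    congr 3
  have f1 : face (1 : Fin 2) (show Simplex (Borel G (Set.univ : Set (TA ι))) (0 + 1) from τ)
      = ContinuousMap.comp (borelIncl G S) (pt x hxS) := by
    apply ContinuousMap.ext
    intro s
    show (Quot.mk _ (e, ⟨γ ((stdSimplex.map (Fin.succAbove (1 : Fin 2)) s) 1), trivial⟩) :
      Borel G (Set.univ : Set (TA ι))) = Quot.mk _ (e, ⟨x, trivial⟩)
    have : (stdSimplex.map (Fin.succAbove (1 : Fin 2)) s) 1 = (0 : ℝ) := by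
      rw [map_succAbove]
      simp
    rw [this]
    congr 3
  rw [f0, f1, h5, h5] at hτ'
  have cy : c (pt y hyS) = 1 := if_pos hy
  have cx : c (pt x hxS) = 0 := if_neg (not_lt.2 hx.le)
  rw [cy, cx] at hτ'
  simp at hτ'

/-! The example: `SU(2) × U(1)` on `ℂ² ⊗ χ ⊕ ℂ²`. -/

/-- The embedding of `SU(2) × U(1)` in `U(4)`: `(g, t)` acts on `ℂ² ⊕ ℂ²` by `(t g, g)`. -/
def emb : (Matrix.specialUnitaryGroup (Fin 2) ℂ × Circle) →* Matrix.unitaryGroup (Fin 2 ⊕ Fin 2) ℂ where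
  toFun p := ⟨Matrix.fromBlocks ((p.2 : ℂ) • p.1.1) 0 0 p.1.1, by
    have h1 : p.1.1 * star p.1.1 = 1 :=
      Matrix.mem_unitaryGroup_iff.1 (Matrix.mem_specialUnitaryGroup_iff.1 p.1.2).1
    have h2 : (p.2 : ℂ) * star (p.2 : ℂ) = 1 := by
      have := Circle.normSq_coe p.2
      rw [Complex.star_def, Complex.mul_conj, this]
      simp
    rw [Matrix.mem_unitaryGroup_iff, Matrix.star_eq_conjTranspose, Matrix.fromBlocks_conjTranspose,
      Matrix.fromBlocks_multiply]
    rw [Matrix.star_eq_conjTranspose] at h1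
    simp only [Matrix.conjTranspose_zero, Matrix.mul_zero, Matrix.zero_mul, add_zero, zero_add,
      Matrix.conjTranspose_smul, Matrix.smul_mul, Matrix.mul_smul, smul_smul, h1, h2, one_smul]
    rw [mul_comm] at h2
    rw [h2, smul_zero, one_smul, Matrix.fromBlocks_one]⟩
  map_one' := by
    apply Subtype.ext
    show Matrix.fromBlocks (((1 : Circle) : ℂ) • (1 : Matrix (Fin 2) (Fin 2) ℂ)) 0 0 1 = 1
    simp
  map_mul' p q := by
    apply Subtype.ext
    show Matrix.fromBlocks (((p.2 * q.2 : Circle) : ℂ) • (p.1.1 * q.1.1)) 0 0 (p.1.1 * q.1.1)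
      = Matrix.fromBlocks ((p.2 : ℂ) • p.1.1) 0 0 p.1.1 * Matrix.fromBlocks ((q.2 : ℂ) • q.1.1) 0 0 q.1.1
    rw [Matrix.fromBlocks_multiply]
    simp [Matrix.smul_mul, Matrix.mul_smul, smul_smul, mul_comm]

/-- The group `G ≅ SU(2) × U(1)`. -/
def G0 : Subgroup (Matrix.unitaryGroup (Fin 2 ⊕ Fin 2) ℂ) := emb.range

lemma mem_G0 {u : Matrix.unitaryGroup (Fin 2 ⊕ Fin 2) ℂ} (hu : u ∈ G0) :
    ∃ (h : Matrix (Fin 2) (Fin 2) ℂ) (t : ℂ), h * hᴴ = 1 ∧ h.det = 1 ∧ t * star t = 1 ∧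
      u.1 = Matrix.fromBlocks (t • h) 0 0 h := by
  obtain ⟨p, rfl⟩ := hu
  refine ⟨p.1.1, p.2, ?_, (Matrix.mem_specialUnitaryGroup_iff.1 p.1.2).2, ?_, rfl⟩
  · exact Matrix.mem_unitaryGroup_iff.1 (Matrix.mem_specialUnitaryGroup_iff.1 p.1.2).1
  · have := Circle.normSq_coe p.2
    rw [Complex.star_def, Complex.mul_conj, this]
    simp

/-- The central value: `ξ_ℝ = - Im tr / 4` and `ξ_ℂ = 0`. -/
def xi (X : Matrix (Fin 2 ⊕ Fin 2) (Fin 2 ⊕ Fin 2) ℂ) : ℝ × ℂ := (-(X.trace.im) / 4, 0)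

lemma xi_central : IsCentral G0 xi := by
  refine ⟨fun X Y => ?_, fun r X => ?_, ?_⟩
  · apply Prod.ext <;> simp [xi]
    ring
  · apply Prod.ext <;> simp [xi]
    ring
  intro g _ X _
  have h : (g.1 * X * (g⁻¹).1).trace = X.trace := by
    rw [Matrix.trace_mul_comm, ← Matrix.mul_assoc, ← Matrix.UnitaryGroup.mul_val, inv_mul_cancel]
    simp
  show ((-((g.1 * X * (g⁻¹).1).trace.im) / 4, 0) : ℝ × ℂ) = (-(X.trace.im) / 4, 0)
  rw [h]

lemma mem_lieAlg_theta :
    Matrix.fromBlocks (Complex.I • (1 : Matrix (Fin 2) (Fin 2) ℂ)) 0 0 0 ∈ lieAlg G0 := by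
  refine ⟨fun s => emb (1, Circle.exp s), fun s => ⟨_, rfl⟩, by simp [← Prod.one_eq_mk], ?_⟩
  have key : HasDerivAt (fun s : ℝ => ((Circle.exp s : Circle) : ℂ)) Complex.I 0 := by
    have h1 : HasDerivAt (fun s : ℝ => Complex.exp (s * Complex.I)) Complex.I 0 := by
      have := ((Complex.ofRealCLM.hasDerivAt (x := (0 : ℝ))).mul_const Complex.I).cexp
      simpa using this
    exact h1
  have hval : ∀ s i j, (emb (1, Circle.exp s)).1 i j = Matrix.fromBlocks
      (((Circle.exp s : Circle) : ℂ) • (1 : Matrix (Fin 2) (Fin 2) ℂ)) 0 0 1 i j := fun _ _ _ => rfl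
  rintro (i | i) (j | j)
  · simp only [hval, Matrix.fromBlocks_apply₁₁, Matrix.smul_apply, smul_eq_mul]
    exact key.mul_const _
  · simp only [hval, Matrix.fromBlocks_apply₁₂]
    exact hasDerivAt_const _ _
  · simp only [hval, Matrix.fromBlocks_apply₂₁]
    exact hasDerivAt_const _ _
  · simp only [hval, Matrix.fromBlocks_apply₂₂]
    exact hasDerivAt_const _ _

lemma mem_lieAlg_of_su2 (M : ℝ → Matrix.specialUnitaryGroup (Fin 2) ℂ) (h0 : M 0 = 1)
    (Y : Matrix (Fin 2) (Fin 2) ℂ) (hY : ∀ i j, HasDerivAt (fun s => (M s).1 i j) (Y i j) 0) :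
    Matrix.fromBlocks Y 0 0 Y ∈ lieAlg G0 := by
  refine ⟨fun s => emb (M s, 1), fun s => ⟨_, rfl⟩, by simp [h0, ← Prod.one_eq_mk], ?_⟩
  have hval : ∀ s i j, (emb (M s, 1)).1 i j
      = Matrix.fromBlocks (((1 : Circle) : ℂ) • (M s).1) 0 0 (M s).1 i j := fun _ _ _ => rfl
  rintro (i | i) (j | j)
  · simp only [hval, Matrix.fromBlocks_apply₁₁, Matrix.smul_apply, smul_eq_mul, Circle.coe_one,
      one_mul]
    exact hY i j
  · simp only [hval, Matrix.fromBlocks_apply₁₂]
    exact hasDerivAt_const _ _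
  · simp only [hval, Matrix.fromBlocks_apply₂₁]
    exact hasDerivAt_const _ _
  · simp only [hval, Matrix.fromBlocks_apply₂₂]
    exact hY i j

/-- The element of `SU(2)` with first row `(α, β)`. -/
def su (α β : ℂ) (h : α * star α + β * star β = 1) : Matrix.specialUnitaryGroup (Fin 2) ℂ :=
  ⟨!![α, β; -star β, star α], by
    rw [Matrix.mem_specialUnitaryGroup_iff, Matrix.mem_unitaryGroup_iff,
      Matrix.star_eq_conjTranspose]
    constructor
    · ext i j
      fin_cases i <;> fin_cases j <;>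
        simp [Matrix.mul_apply, Fin.sum_univ_two, Matrix.conjTranspose_apply] <;>
        simp only [Complex.star_def] at h <;> first | ring1 | linear_combination h
    · rw [Matrix.det_fin_two_of]
      linear_combination h⟩

lemma su_one (h : (1 : ℂ) * star 1 + 0 * star 0 = 1) : su 1 0 h = 1 := by
  apply Subtype.ext
  show !![(1 : ℂ), 0; -star 0, star 1] = 1
  ext i j
  fin_cases i <;> fin_cases j <;> simp

lemma hasDerivAt_cexp : HasDerivAt (fun s : ℝ => Complex.exp (s * Complex.I)) Complex.I 0 := by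
  have := ((Complex.ofRealCLM.hasDerivAt (x := (0 : ℝ))).mul_const Complex.I).cexp
  simpa using this

lemma hasDerivAt_cos : HasDerivAt (fun s : ℝ => (Real.cos s : ℂ)) 0 0 := by
  have := (Real.hasDerivAt_cos 0).ofReal_comp
  simpa using this

lemma hasDerivAt_sin : HasDerivAt (fun s : ℝ => (Real.sin s : ℂ)) 1 0 := by
  have := (Real.hasDerivAt_sin 0).ofReal_comp
  simpa using this

lemma mem_lieAlg_D : Matrix.fromBlocks !![Complex.I, 0; 0, -Complex.I] 0 0
    !![Complex.I, 0; 0, -Complex.I] ∈ lieAlg G0 := by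
  have hs : ∀ s : ℝ, Complex.exp (s * Complex.I) * star (Complex.exp (s * Complex.I))
      + 0 * star 0 = 1 := by
    intro s
    rw [Complex.star_def, Complex.mul_conj, Complex.normSq_eq_norm_sq,
      Complex.norm_exp_ofReal_mul_I]
    simp
  apply mem_lieAlg_of_su2 (fun s => su (Complex.exp (s * Complex.I)) 0 (hs s))
  · rw [← su_one (by simp)]
    congr 1
    simp
  · intro i j
    have h := hasDerivAt_cexp
    fin_cases i <;> fin_cases j
    · simpa [su] using h
    · simpa [su] using hasDerivAt_const (0 : ℝ) (0 : ℂ)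
    · simpa [su] using hasDerivAt_const (0 : ℝ) (0 : ℂ)
    · have h2 := (Complex.conjCLE.toContinuousLinearMap.hasFDerivAt.comp_hasDerivAt (0 : ℝ) h)
      simpa [su, Function.comp_def] using h2

lemma mem_lieAlg_R : Matrix.fromBlocks !![(0 : ℂ), 1; -1, 0] 0 0 !![(0 : ℂ), 1; -1, 0] ∈ lieAlg G0 := by
  have hs : ∀ s : ℝ, (Real.cos s : ℂ) * star (Real.cos s : ℂ) + (Real.sin s : ℂ) * star (Real.sin s : ℂ) = 1 := by
    intro s
    rw [Complex.star_def, Complex.conj_ofReal, Complex.conj_ofReal]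
    norm_cast
    nlinarith [Real.cos_sq_add_sin_sq s]
  apply mem_lieAlg_of_su2 (fun s => su (Real.cos s) (Real.sin s) (hs s))
  · rw [← su_one (by simp)]
    congr 1 <;> simp
  · intro i j
    fin_cases i <;> fin_cases j
    · simpa [su] using hasDerivAt_cos
    · simpa [su] using hasDerivAt_sin
    · simpa [su, ← Complex.ofReal_sin, Complex.conj_ofReal, -Complex.ofReal_sin] using hasDerivAt_sin.fun_neg
    · simpa [su, ← Complex.ofReal_cos, Complex.conj_ofReal, -Complex.ofReal_cos] using hasDerivAt_cos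

lemma mem_lieAlg_S : Matrix.fromBlocks !![(0 : ℂ), Complex.I; Complex.I, 0] 0 0
    !![(0 : ℂ), Complex.I; Complex.I, 0] ∈ lieAlg G0 := by
  have hs : ∀ s : ℝ, (Real.cos s : ℂ) * star (Real.cos s : ℂ)
      + (Real.sin s * Complex.I : ℂ) * star (Real.sin s * Complex.I : ℂ) = 1 := by
    intro s
    have h1 : star (Real.sin s * Complex.I : ℂ) = - (Real.sin s * Complex.I) := by
      rw [Complex.star_def, map_mul, Complex.conj_ofReal, Complex.conj_I]
      ring
    rw [h1, Complex.star_def, Complex.conj_ofReal]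
    have h2 : (Real.cos s : ℂ) ^ 2 + (Real.sin s : ℂ) ^ 2 = 1 := by
      norm_cast
      exact Real.cos_sq_add_sin_sq s
    linear_combination h2 - (Real.sin s : ℂ) ^ 2 * Complex.I_sq
  apply mem_lieAlg_of_su2 (fun s => su (Real.cos s) (Real.sin s * Complex.I) (hs s))
  · rw [← su_one (by simp)]
    congr 1 <;> simp
  · intro i j
    fin_cases i <;> fin_cases j
    · simpa [su] using hasDerivAt_cos
    · simpa [su] using hasDerivAt_sin.mul_const Complex.I
    · simpa [su, ← Complex.ofReal_sin, Complex.conj_ofReal, -Complex.ofReal_sin] using hasDerivAt_sin.mul_const Complex.I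
    · simpa [su, ← Complex.ofReal_cos, Complex.conj_ofReal, -Complex.ofReal_cos] using hasDerivAt_cos

/-- Relations satisfied by all elements of the Lie algebra of `G0`. -/
lemma lieAlg_rel {X : Matrix (Fin 2 ⊕ Fin 2) (Fin 2 ⊕ Fin 2) ℂ} (hX : X ∈ lieAlg G0) :
    (∀ i j, X (Sum.inr i) (Sum.inl j) = 0 ∧ X (Sum.inl i) (Sum.inr j) = 0) ∧
    X (Sum.inl 0) (Sum.inl 0) + X (Sum.inr 1) (Sum.inr 1)
      = X (Sum.inl 1) (Sum.inl 1) + X (Sum.inr 0) (Sum.inr 0) ∧
    X (Sum.inr 0) (Sum.inr 0) + X (Sum.inr 1) (Sum.inr 1) = 0 := by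
  obtain ⟨γ, h1, h2, h3⟩ := hX
  have h0 : ∀ i j, (γ 0).1 i j = (1 : Matrix (Fin 2 ⊕ Fin 2) (Fin 2 ⊕ Fin 2) ℂ) i j := by
    intro i j
    rw [h2]
    rfl
  refine ⟨?_, ?_, ?_⟩
  · intro i j
    constructor
    · have hd := h3 (Sum.inr i) (Sum.inl j)
      have : (fun s => (γ s).1 (Sum.inr i) (Sum.inl j)) = fun _ => 0 := by
        funext s
        obtain ⟨h, t, -, -, -, hu⟩ := mem_G0 (h1 s)
        rw [hu, Matrix.fromBlocks_apply₂₁]
        rfl
      rw [this] at hd
      exact hd.unique (hasDerivAt_const _ _)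
    · have hd := h3 (Sum.inl i) (Sum.inr j)
      have : (fun s => (γ s).1 (Sum.inl i) (Sum.inr j)) = fun _ => 0 := by
        funext s
        obtain ⟨h, t, -, -, -, hu⟩ := mem_G0 (h1 s)
        rw [hu, Matrix.fromBlocks_apply₁₂]
        rfl
      rw [this] at hd
      exact hd.unique (hasDerivAt_const _ _)
  · have hd1 := (h3 (Sum.inl 0) (Sum.inl 0)).fun_mul (h3 (Sum.inr 1) (Sum.inr 1))
    have hd2 := (h3 (Sum.inl 1) (Sum.inl 1)).fun_mul (h3 (Sum.inr 0) (Sum.inr 0))
    have : (fun s => (γ s).1 (Sum.inl 0) (Sum.inl 0) * (γ s).1 (Sum.inr 1) (Sum.inr 1))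
        = fun s => (γ s).1 (Sum.inl 1) (Sum.inl 1) * (γ s).1 (Sum.inr 0) (Sum.inr 0) := by
      funext s
      obtain ⟨h, t, -, -, -, hu⟩ := mem_G0 (h1 s)
      rw [hu]
      simp only [Matrix.fromBlocks_apply₁₁, Matrix.fromBlocks_apply₂₂, Matrix.smul_apply,
        smul_eq_mul]
      ring
    rw [this] at hd1
    have h4 := hd1.unique hd2
    simp only [h0, Matrix.one_apply_eq, one_mul, mul_one] at h4
    linear_combination h4
  · have hd := ((h3 (Sum.inr 0) (Sum.inr 0)).fun_mul (h3 (Sum.inr 1) (Sum.inr 1))).fun_sub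
      ((h3 (Sum.inr 0) (Sum.inr 1)).fun_mul (h3 (Sum.inr 1) (Sum.inr 0)))
    have : (fun s => (γ s).1 (Sum.inr 0) (Sum.inr 0) * (γ s).1 (Sum.inr 1) (Sum.inr 1)
        - (γ s).1 (Sum.inr 0) (Sum.inr 1) * (γ s).1 (Sum.inr 1) (Sum.inr 0)) = fun _ => 1 := by
      funext s
      obtain ⟨h, t, -, hdet, -, hu⟩ := mem_G0 (h1 s)
      rw [hu]
      simp only [Matrix.fromBlocks_apply₂₂]
      rw [Matrix.det_fin_two] at hdet
      exact hdet
    rw [this] at hd
    have h4 := (hasDerivAt_const (0 : ℝ) (1 : ℂ)).unique hd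
    simp only [h0, Matrix.one_apply_eq, one_mul, mul_one] at h4
    simp at h4
    linear_combination -h4

/-- The algebra behind the description of the level set. -/
lemma alg_core (x1 x2 y1 y2 p1 p2 r1 r2 X1 X2 Y1 Y2 P1 P2 R1 R2 c : ℂ)
    (E1 : x1 * p2 + y1 * r2 = 0) (E2 : x2 * p1 + y2 * r1 = 0)
    (E3 : x1 * p1 + y1 * r1 = x2 * p2 + y2 * r2)
    (E1' : X1 * P2 + Y1 * R2 = 0) (E2' : X2 * P1 + Y2 * R1 = 0)
    (E3' : X1 * P1 + Y1 * R1 = X2 * P2 + Y2 * R2)
    (E5 : x1 * X2 + y1 * Y2 - p2 * P1 - r2 * R1 = 0)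
    (E5' : X1 * x2 + Y1 * y2 - P2 * p1 - R2 * r1 = 0)
    (E6 : x1 * X1 + y1 * Y1 - p1 * P1 - r1 * R1
      = x2 * X2 + y2 * Y2 - p2 * P2 - r2 * R2)
    (hc : x1 * X1 + y1 * Y1 + p2 * P2 + r2 * R2 = c) (hc0 : c ≠ 0) :
    x1 * X1 + x2 * X2 + p1 * P1 + p2 * P2 = c ∧ y1 * Y1 + y2 * Y2 + r1 * R1 + r2 * R2 = c ∧
    X2 * p1 - X1 * p2 = 0 ∧ X1 * y1 + X2 * y2 + p2 * R2 + p1 * R1 = 0 ∧
    X2 * r1 - X1 * r2 + p1 * Y2 - p2 * Y1 = 0 := by
  let A : Matrix (Fin 4) (Fin 4) ℂ :=
    !![x1, y1, -p2, -r2; x2, y2, p1, r1; -P2, -R2, X1, Y1; P1, R1, X2, Y2]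
  let B : Matrix (Fin 4) (Fin 4) ℂ :=
    !![X1, X2, -p2, p1; Y1, Y2, -r2, r1; -P2, P1, x1, x2; -R2, R1, y1, y2]
  have hAB : A * B = c • (1 : Matrix (Fin 4) (Fin 4) ℂ) := by
    ext i j
    fin_cases i <;> fin_cases j <;>
      simp [A, B, Matrix.mul_apply, Fin.sum_univ_four] <;>
      first
      | linear_combination hc
      | linear_combination hc - E6
      | linear_combination E5
      | linear_combination E5'
      | linear_combination (-2) * E1
      | linear_combination (-2) * E1'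
      | linear_combination 2 * E2
      | linear_combination 2 * E2'
      | linear_combination E3
      | linear_combination E3'
  have hBA : B * A = c • (1 : Matrix (Fin 4) (Fin 4) ℂ) := by
    have h1 : A * (c⁻¹ • B) = 1 := by
      rw [Matrix.mul_smul, hAB, smul_smul, inv_mul_cancel₀ hc0, one_smul]
    have h2 := _root_.mul_eq_one_comm.1 h1
    rw [Matrix.smul_mul] at h2
    rw [← h2, smul_smul, mul_inv_cancel₀ hc0, one_smul]
  have e00 := congrFun (congrFun hBA 0) 0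
  have e11 := congrFun (congrFun hBA 1) 1
  have e02 := congrFun (congrFun hBA 0) 2
  have e01 := congrFun (congrFun hBA 0) 1
  have e03 := congrFun (congrFun hBA 0) 3
  simp [A, B, Matrix.mul_apply, Fin.sum_univ_four] at e00 e11 e02 e01 e03
  refine ⟨?_, ?_, ?_, ?_, ?_⟩
  · linear_combination e00
  · linear_combination e11
  · linear_combination e02 / 2
  · linear_combination e01
  · linear_combination e03

lemma level_algebra (x1 x2 y1 y2 p1 p2 r1 r2 : ℂ)
    (E1 : x1 * p2 + y1 * r2 = 0) (E2 : x2 * p1 + y2 * r1 = 0)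
    (E3 : x1 * p1 + y1 * r1 = x2 * p2 + y2 * r2)
    (E4 : x1 * p1 + x2 * p2 = 0)
    (E5 : x1 * star x2 + y1 * star y2 - p2 * star p1 - r2 * star r1 = 0)
    (E6 : x1 * star x1 + y1 * star y1 - p1 * star p1 - r1 * star r1
      = x2 * star x2 + y2 * star y2 - p2 * star p2 - r2 * star r2)
    (E7 : x1 * star x1 + x2 * star x2 - p1 * star p1 - p2 * star p2 = 1) :
    (p1 = 0 ∧ p2 = 0) ∧ ((y1 = 0 ∧ y2 = 0 ∧ r1 * star r1 + r2 * star r2 = 1) ∨
      (r1 = 0 ∧ r2 = 0 ∧ y1 * star y1 + y2 * star y2 = 1)) := by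
  have nn : ∀ z : ℂ, z * star z = ((‖z‖ ^ 2 : ℝ) : ℂ) := fun z => by
    rw [Complex.star_def, Complex.mul_conj, Complex.normSq_eq_norm_sq]
  have hc0 : x1 * star x1 + y1 * star y1 + p2 * star p2 + r2 * star r2 ≠ 0 := by
    intro h
    have h2 : x2 * star x2 + y2 * star y2 + p1 * star p1 + r1 * star r1 = 0 := by
      linear_combination h - E6
    simp only [nn] at h h2 E7
    norm_cast at h h2 E7
    nlinarith [sq_nonneg ‖x1‖, sq_nonneg ‖y1‖, sq_nonneg ‖p2‖, sq_nonneg ‖r2‖, sq_nonneg ‖x2‖,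
      sq_nonneg ‖y2‖, sq_nonneg ‖p1‖, sq_nonneg ‖r1‖]
  have E1' := congrArg star E1
  have E2' := congrArg star E2
  have E3' := congrArg star E3
  have E5' := congrArg star E5
  simp only [star_add, star_sub, star_mul', star_star, star_zero] at E1' E2' E3' E5'
  obtain ⟨F1, F2, F3, F4, F5⟩ := alg_core x1 x2 y1 y2 p1 p2 r1 r2 _ _ _ _ _ _ _ _ _ E1 E2 E3
    E1' E2' E3' E5 E5' E6 rfl hc0
  -- `x ≠ 0`
  have hx : x1 * star x1 + x2 * star x2 ≠ 0 := by
    intro h
    simp only [nn] at h E7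
    norm_cast at h E7
    nlinarith [sq_nonneg ‖x1‖, sq_nonneg ‖p2‖, sq_nonneg ‖x2‖, sq_nonneg ‖p1‖]
  have hp1 : p1 = 0 := by
    have : (x1 * star x1 + x2 * star x2) * p1 = 0 := by
      linear_combination star x1 * E4 + x2 * F3
    exact (mul_eq_zero.1 this).resolve_left hx
  have hp2 : p2 = 0 := by
    have : (x1 * star x1 + x2 * star x2) * p2 = 0 := by
      linear_combination star x2 * E4 - x1 * F3
    exact (mul_eq_zero.1 this).resolve_left hx
  subst hp1 hp2
  simp only [mul_zero, zero_mul, star_zero, add_zero, zero_add, sub_zero] at *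
  have G1 : y1 * r1 + y2 * r2 = 0 := by
    have : (x1 * star x1 + x2 * star x2) * (y1 * r1 + y2 * r2) = 0 := by
      linear_combination (x1 * r1 + x2 * r2) * F4 + (x2 * y1 - x1 * y2) * F5
    exact (mul_eq_zero.1 this).resolve_left hx
  have G2 : y1 * r1 = 0 := by linear_combination (G1 + E3) / 2
  have G3 : y2 * r2 = 0 := by linear_combination (G1 - E3) / 2
  refine ⟨⟨trivial, trivial⟩, ?_⟩
  have H : y1 * star y1 + y2 * star y2 + (r1 * star r1 + r2 * star r2) = 1 := by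
    linear_combination F2 - F1 + E7
  by_cases hy : y1 = 0 ∧ y2 = 0
  · left
    obtain ⟨rfl, rfl⟩ := hy
    refine ⟨rfl, rfl, ?_⟩
    simpa using H
  · right
    have hr : r1 = 0 ∧ r2 = 0 := by
      by_cases hy1 : y1 = 0
      · have hy2 : y2 ≠ 0 := fun h => hy ⟨hy1, h⟩
        exact ⟨(mul_eq_zero.1 E2).resolve_left hy2, (mul_eq_zero.1 G3).resolve_left hy2⟩
      · exact ⟨(mul_eq_zero.1 G2).resolve_left hy1, (mul_eq_zero.1 E1).resolve_left hy1⟩
    obtain ⟨rfl, rfl⟩ := hr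
    refine ⟨rfl, rfl, ?_⟩
    simpa using H

lemma aux_im (W : ℂ) : (Complex.I / 2 * (star W - W)).re = W.im := by
  simp [Complex.mul_re, Complex.div_re, Complex.div_im]
  ring

lemma aux_re (W : ℂ) : (Complex.I / 2 * (Complex.I * (star W + W))).re = -W.re := by
  simp [Complex.mul_re, Complex.div_re, Complex.div_im]
  ring

lemma level_dichotomy {p : TA (Fin 2 ⊕ Fin 2)} (hp : p ∈ level G0 xi) :
    (p.2 (Sum.inl 0) = 0 ∧ p.2 (Sum.inl 1) = 0) ∧
    ((p.1 (Sum.inr 0) = 0 ∧ p.1 (Sum.inr 1) = 0 ∧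
      p.2 (Sum.inr 0) * star (p.2 (Sum.inr 0)) + p.2 (Sum.inr 1) * star (p.2 (Sum.inr 1)) = 1) ∨
    (p.2 (Sum.inr 0) = 0 ∧ p.2 (Sum.inr 1) = 0 ∧
      p.1 (Sum.inr 0) * star (p.1 (Sum.inr 0)) + p.1 (Sum.inr 1) * star (p.1 (Sum.inr 1)) = 1)) := by
  have hT := hp _ mem_lieAlg_theta
  have hD := hp _ mem_lieAlg_D
  have hR := hp _ mem_lieAlg_R
  have hS := hp _ mem_lieAlg_S
  have hT1 := congrArg Prod.fst hT
  have hT2 := congrArg Prod.snd hT
  have hD1 := congrArg Prod.fst hD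
  have hD2 := congrArg Prod.snd hD
  have hR1 := congrArg Prod.fst hR
  have hR2 := congrArg Prod.snd hR
  have hS1 := congrArg Prod.fst hS
  have hS2 := congrArg Prod.snd hS
  simp only [xi, muR, muC, dotProduct, Matrix.mulVec,
    Fintype.sum_sum_type, Fin.sum_univ_two, Matrix.fromBlocks_apply₁₁, Matrix.fromBlocks_apply₁₂,
    Matrix.fromBlocks_apply₂₁, Matrix.fromBlocks_apply₂₂, Pi.star_apply, Matrix.trace,
    Matrix.diag_apply, Matrix.of_apply, Matrix.cons_val', Matrix.cons_val_zero,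
    Matrix.cons_val_one, Matrix.zero_apply, Matrix.smul_apply, Matrix.one_apply, smul_eq_mul,
    Matrix.cons_val_fin_one, zero_mul, add_zero, zero_add, mul_zero, if_true, reduceIte, mul_one,
    Fin.isValue, zero_ne_one, one_ne_zero, neg_mul, mul_neg] at hT1 hT2 hD1 hD2 hR1 hR2 hS1 hS2
  generalize p.1 (Sum.inl 0) = x1 at *
  generalize p.1 (Sum.inl 1) = x2 at *
  generalize p.1 (Sum.inr 0) = y1 at *
  generalize p.1 (Sum.inr 1) = y2 at *
  generalize p.2 (Sum.inl 0) = p1 at *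
  generalize p.2 (Sum.inl 1) = p2 at *
  generalize p.2 (Sum.inr 0) = r1 at *
  generalize p.2 (Sum.inr 1) = r2 at *
  have nn : ∀ z : ℂ, z * star z = ((‖z‖ ^ 2 : ℝ) : ℂ) := fun z => by
    rw [Complex.star_def, Complex.mul_conj, Complex.normSq_eq_norm_sq]
  have hI := Complex.I_mul_I
  have E4 : x1 * p1 + x2 * p2 = 0 := by
    linear_combination (-Complex.I) * hT2 + (x1 * p1 + x2 * p2) * hI
  have E3 : x1 * p1 + y1 * r1 = x2 * p2 + y2 * r2 := by
    linear_combination (-Complex.I) * hD2 + (x1 * p1 + y1 * r1 - x2 * p2 - y2 * r2) * hI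
  have hS2' : p1 * x2 + p2 * x1 + (r1 * y2 + r2 * y1) = 0 := by
    linear_combination (-Complex.I) * hS2 + (p1 * x2 + p2 * x1 + (r1 * y2 + r2 * y1)) * hI
  have E1 : x1 * p2 + y1 * r2 = 0 := by
    linear_combination (hS2' - hR2) / 2
  have E2 : x2 * p1 + y2 * r1 = 0 := by
    linear_combination (hS2' + hR2) / 2
  have E7 : x1 * star x1 + x2 * star x2 - p1 * star p1 - p2 * star p2 = 1 := by
    have h1 : Complex.I / 2 * (star x1 * (Complex.I * x1) + star x2 * (Complex.I * x2) -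
        (p1 * (Complex.I * star p1) + p2 * (Complex.I * star p2)))
        = ((-(‖x1‖ ^ 2 + ‖x2‖ ^ 2 - ‖p1‖ ^ 2 - ‖p2‖ ^ 2) / 2 : ℝ) : ℂ) := by
      push_cast
      have e1 := nn x1
      have e2 := nn x2
      have e3 := nn p1
      have e4 := nn p2
      push_cast at e1 e2 e3 e4
      rw [← e1, ← e2, ← e3, ← e4]
      linear_combination (x1 * star x1 + x2 * star x2 - p1 * star p1 - p2 * star p2) / 2 * hI
    rw [h1, Complex.ofReal_re] at hT1
    simp only [nn]
    norm_cast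
    simp at hT1
    linarith
  have E6 : x1 * star x1 + y1 * star y1 - p1 * star p1 - r1 * star r1
      = x2 * star x2 + y2 * star y2 - p2 * star p2 - r2 * star r2 := by
    have h1 : (Complex.I / 2 *
        (star x1 * (Complex.I * x1) + -(star x2 * (Complex.I * x2)) +
            (star y1 * (Complex.I * y1) + -(star y2 * (Complex.I * y2))) -
          (p1 * (Complex.I * star p1) + -(p2 * (Complex.I * star p2)) +
            (r1 * (Complex.I * star r1) + -(r2 * (Complex.I * star r2))))))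
        = ((-(‖x1‖ ^ 2 - ‖x2‖ ^ 2 + ‖y1‖ ^ 2 - ‖y2‖ ^ 2 - ‖p1‖ ^ 2 + ‖p2‖ ^ 2 - ‖r1‖ ^ 2
          + ‖r2‖ ^ 2) / 2 : ℝ) : ℂ) := by
      push_cast
      have e1 := nn x1
      have e2 := nn x2
      have e3 := nn p1
      have e4 := nn p2
      have e5 := nn y1
      have e6 := nn y2
      have e7 := nn r1
      have e8 := nn r2
      push_cast at e1 e2 e3 e4 e5 e6 e7 e8
      rw [← e1, ← e2, ← e3, ← e4, ← e5, ← e6, ← e7, ← e8]
      linear_combination (x1 * star x1 - x2 * star x2 + y1 * star y1 - y2 * star y2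
        - p1 * star p1 + p2 * star p2 - r1 * star r1 + r2 * star r2) / 2 * hI
    rw [h1, Complex.ofReal_re] at hD1
    simp only [nn]
    norm_cast
    simp at hD1
    linarith
  have E5 : x1 * star x2 + y1 * star y2 - p2 * star p1 - r2 * star r1 = 0 := by
    set W : ℂ := x1 * star x2 + y1 * star y2 - p2 * star p1 - r2 * star r1 with hW
    have hWs : star W = star x1 * x2 + star y1 * y2 - star p2 * p1 - star r2 * r1 := by
      rw [hW]
      simp only [star_add, star_sub, star_mul', star_star]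
    have h1 : Complex.I / 2 *
        (star x1 * (1 * x2) + -(star x2 * (1 * x1)) + (star y1 * (1 * y2) + -(star y2 * (1 * y1))) -
          (p1 * (1 * star p2) + -(p2 * (1 * star p1)) + (r1 * (1 * star r2) + -(r2 * (1 * star r1)))))
        = Complex.I / 2 * (star W - W) := by
      rw [hWs, hW]
      ring
    have h2 : Complex.I / 2 *
        (star x1 * (Complex.I * x2) + star x2 * (Complex.I * x1) +
            (star y1 * (Complex.I * y2) + star y2 * (Complex.I * y1)) -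
          (p1 * (Complex.I * star p2) + p2 * (Complex.I * star p1) +
            (r1 * (Complex.I * star r2) + r2 * (Complex.I * star r1))))
        = Complex.I / 2 * (Complex.I * (star W + W)) := by
      rw [hWs, hW]
      ring
    rw [h1, aux_im] at hR1
    rw [h2, aux_re] at hS1
    apply Complex.ext
    · simp at hS1
      simpa using hS1
    · simp at hR1
      simpa using hR1
  exact level_algebra x1 x2 y1 y2 p1 p2 r1 r2 E1 E2 E3 E4 E5 E6 E7

lemma level_first {p : TA (Fin 2 ⊕ Fin 2)} (hp : p ∈ level G0 xi) :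
    p.1 (Sum.inl 0) ≠ 0 ∨ p.1 (Sum.inl 1) ≠ 0 := by
  by_contra hcon
  push Not at hcon
  obtain ⟨⟨h1, h2⟩, -⟩ := level_dichotomy hp
  have hT := hp _ mem_lieAlg_theta
  have hT1 := congrArg Prod.fst hT
  simp only [xi, muR, dotProduct, Matrix.mulVec,
    Fintype.sum_sum_type, Fin.sum_univ_two, Matrix.fromBlocks_apply₁₁, Matrix.fromBlocks_apply₁₂,
    Matrix.fromBlocks_apply₂₁, Matrix.fromBlocks_apply₂₂, Pi.star_apply, Matrix.trace,
    Matrix.diag_apply, hcon.1, hcon.2, h1, h2] at hT1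
  norm_num at hT1

/-- An element of `SU(2)` with a nonzero fixed vector is the identity. -/
lemma su_fix (h : Matrix (Fin 2) (Fin 2) ℂ) (h1 : h * hᴴ = 1) (hdet : h.det = 1)
    (v : Fin 2 → ℂ) (hv : v ≠ 0) (hfix : h *ᵥ v = v) : h = 1 := by
  have h2 : (h - 1).det = 0 := by
    rw [← Matrix.exists_mulVec_eq_zero_iff]
    exact ⟨v, hv, by rw [Matrix.sub_mulVec, hfix, Matrix.one_mulVec, sub_self]⟩
  have htr : h 0 0 + h 1 1 = 2 := by
    rw [Matrix.det_fin_two] at h2 hdet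
    simp at h2
    linear_combination -h2 + hdet
  have e00 := congrFun (congrFun h1 0) 0
  have e11 := congrFun (congrFun h1 1) 1
  simp only [Matrix.mul_apply, Fin.sum_univ_two, Matrix.conjTranspose_apply, Matrix.one_apply_eq,
    Complex.star_def, Complex.mul_conj, Complex.normSq_apply] at e00 e11
  norm_cast at e00 e11
  have hre : (h 0 0).re + (h 1 1).re = 2 := by
    have := congrArg Complex.re htr
    simpa using this
  have k0 : (h 0 0).re ≤ 1 := by
    nlinarith [sq_nonneg (h 0 0).im, sq_nonneg (h 0 1).re, sq_nonneg (h 0 1).im]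
  have k1 : (h 1 1).re ≤ 1 := by
    nlinarith [sq_nonneg (h 1 1).im, sq_nonneg (h 1 0).re, sq_nonneg (h 1 0).im]
  have k2 : (h 0 0).re = 1 := by linarith
  have k3 : (h 1 1).re = 1 := by linarith
  rw [k2] at e00
  rw [k3] at e11
  have m1 : (h 0 0).im = 0 := by nlinarith [sq_nonneg (h 0 0).im, sq_nonneg (h 0 1).re, sq_nonneg (h 0 1).im]
  have m2 : (h 0 1).re = 0 := by nlinarith [sq_nonneg (h 0 0).im, sq_nonneg (h 0 1).re, sq_nonneg (h 0 1).im]
  have m3 : (h 0 1).im = 0 := by nlinarith [sq_nonneg (h 0 0).im, sq_nonneg (h 0 1).re, sq_nonneg (h 0 1).im]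
  have m4 : (h 1 1).im = 0 := by nlinarith [sq_nonneg (h 1 1).im, sq_nonneg (h 1 0).re, sq_nonneg (h 1 0).im]
  have m5 : (h 1 0).re = 0 := by nlinarith [sq_nonneg (h 1 1).im, sq_nonneg (h 1 0).re, sq_nonneg (h 1 0).im]
  have m6 : (h 1 0).im = 0 := by nlinarith [sq_nonneg (h 1 1).im, sq_nonneg (h 1 0).re, sq_nonneg (h 1 0).im]
  ext i j
  fin_cases i <;> fin_cases j <;> apply Complex.ext <;> simp [k2, k3, m1, m2, m3, m4, m5, m6]

lemma level_free {p : TA (Fin 2 ⊕ Fin 2)} (hp : p ∈ level G0 xi)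
    {u : Matrix.unitaryGroup (Fin 2 ⊕ Fin 2) ℂ} (hu : u ∈ G0) (hfix : actA u p = p) : u = 1 := by
  obtain ⟨h, t, h1, hdet, ht, hval⟩ := mem_G0 hu
  have hf1 : u.1 *ᵥ p.1 = p.1 := congrArg Prod.fst hfix
  have hf2 : p.2 ᵥ* (u⁻¹).1 = p.2 := congrArg Prod.snd hfix
  have hf2' : u.1 *ᵥ star p.2 = star p.2 := by
    have h3 : (u⁻¹).1 = (u.1)ᴴ := rfl
    rw [h3] at hf2
    have := congrArg star hf2
    rwa [Matrix.star_vecMul, Matrix.conjTranspose_conjTranspose] at this
  have comp2 : ∀ w : Fin 2 ⊕ Fin 2 → ℂ, u.1 *ᵥ w = w →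
      h *ᵥ (fun i => w (Sum.inr i)) = fun i => w (Sum.inr i) := by
    intro w hw
    funext i
    have := congrFun hw (Sum.inr i)
    rw [hval] at this
    simpa [Matrix.mulVec, dotProduct, Fintype.sum_sum_type] using this
  have hh : h = 1 := by
    obtain ⟨-, hA | hB⟩ := level_dichotomy hp
    · refine su_fix h h1 hdet _ ?_ (comp2 _ hf2')
      intro hz
      have z0 := congrFun hz 0
      have z1 := congrFun hz 1
      have z0' : p.2 (Sum.inr 0) = 0 := star_eq_zero.1 z0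
      have z1' : p.2 (Sum.inr 1) = 0 := star_eq_zero.1 z1
      have := hA.2.2
      rw [z0', z1'] at this
      simp at this
    · refine su_fix h h1 hdet _ ?_ (comp2 _ hf1)
      intro hz
      have z0 := congrFun hz 0
      have z1 := congrFun hz 1
      have z0' : p.1 (Sum.inr 0) = 0 := z0
      have z1' : p.1 (Sum.inr 1) = 0 := z1
      have := hB.2.2
      rw [z0', z1'] at this
      simp at this
  have ht1 : t = 1 := by
    have comp1 : ∀ i : Fin 2, t * p.1 (Sum.inl i) = p.1 (Sum.inl i) := by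
      intro i
      have := congrFun hf1 (Sum.inl i)
      rw [hval, hh] at this
      simpa [Matrix.mulVec, dotProduct, Fintype.sum_sum_type, Matrix.one_apply] using this
    rcases level_first hp with h0 | h0
    · exact mul_right_cancel₀ h0 (by rw [comp1, one_mul])
    · exact mul_right_cancel₀ h0 (by rw [comp1, one_mul])
  apply Subtype.ext
  rw [hval, hh, ht1, one_smul, Matrix.fromBlocks_one]
  rfl

/-! Compactness and connectedness of `G0`. -/

lemma su_cond (v : Metric.sphere (0 : EuclideanSpace ℂ (Fin 2)) 1) :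
    v.1 0 * star (v.1 0) + v.1 1 * star (v.1 1) = 1 := by
  have h : ‖v.1‖ = 1 := by simp
  have h2 := EuclideanSpace.norm_sq_eq v.1
  rw [h, Fin.sum_univ_two] at h2
  rw [Complex.star_def, Complex.mul_conj, Complex.mul_conj,
    Complex.normSq_eq_norm_sq, Complex.normSq_eq_norm_sq]
  rw [← Complex.ofReal_add, ← h2]
  norm_num

/-- A continuous surjection from `S³ × S¹` onto `G0`. -/
def psi (q : Metric.sphere (0 : EuclideanSpace ℂ (Fin 2)) 1 × Circle) :
    Matrix.unitaryGroup (Fin 2 ⊕ Fin 2) ℂ :=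
  emb (su (q.1.1 0) (q.1.1 1) (su_cond q.1), q.2)

lemma psi_continuous : Continuous psi := by
  apply Continuous.subtype_mk
  show Continuous fun q : Metric.sphere (0 : EuclideanSpace ℂ (Fin 2)) 1 × Circle =>
    Matrix.fromBlocks ((q.2 : ℂ) • !![q.1.1 0, q.1.1 1; -star (q.1.1 1), star (q.1.1 0)]) 0 0
      !![q.1.1 0, q.1.1 1; -star (q.1.1 1), star (q.1.1 0)]
  have hM : Continuous fun q : Metric.sphere (0 : EuclideanSpace ℂ (Fin 2)) 1 × Circle =>
      !![q.1.1 0, q.1.1 1; -star (q.1.1 1), star (q.1.1 0)] := by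
    apply continuous_matrix
    intro i j
    fin_cases i <;> fin_cases j <;> simp <;> fun_prop
  apply Continuous.matrix_fromBlocks
  · have hC : Continuous fun q : Metric.sphere (0 : EuclideanSpace ℂ (Fin 2)) 1 × Circle =>
        (q.2 : ℂ) := continuous_induced_dom.comp continuous_snd
    exact hC.smul hM
  · exact continuous_const
  · exact continuous_const
  · exact hM

lemma psi_range : Set.range psi = (G0 : Set (Matrix.unitaryGroup (Fin 2 ⊕ Fin 2) ℂ)) := by
  apply Set.Subset.antisymm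
  · rintro _ ⟨q, rfl⟩
    exact ⟨_, rfl⟩
  · rintro _ ⟨p, rfl⟩
    obtain ⟨⟨h, hh⟩, t⟩ := p
    obtain ⟨hh1, hh2⟩ := Matrix.mem_specialUnitaryGroup_iff.1 hh
    have h1 : h * hᴴ = 1 := Matrix.mem_unitaryGroup_iff.1 hh1
    have h2 : h * h.adjugate = 1 := by rw [Matrix.mul_adjugate, hh2, one_smul]
    have h3 : hᴴ = h.adjugate := by
      have h4 : h.adjugate * h = 1 := _root_.mul_eq_one_comm.1 h2
      calc hᴴ = (h.adjugate * h) * hᴴ := by rw [h4, one_mul]
        _ = h.adjugate := by rw [Matrix.mul_assoc, h1, mul_one]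
    have a1 : h 1 0 = -star (h 0 1) := by
      have := congrFun (congrFun h3 1) 0
      rw [Matrix.adjugate_fin_two, Matrix.conjTranspose_apply] at this
      simp at this
      rw [Complex.star_def, this]
      ring
    have a2 : h 1 1 = star (h 0 0) := by
      have := congrFun (congrFun h3 0) 0
      rw [Matrix.adjugate_fin_two, Matrix.conjTranspose_apply] at this
      simpa using this.symm
    have hn : ‖(WithLp.toLp 2 ![h 0 0, h 0 1] : EuclideanSpace ℂ (Fin 2))‖ = 1 := by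
      have e00 := congrFun (congrFun h1 0) 0
      simp only [Matrix.mul_apply, Fin.sum_univ_two, Matrix.conjTranspose_apply,
        Matrix.one_apply_eq, Complex.star_def, Complex.mul_conj,
        Complex.normSq_eq_norm_sq] at e00
      norm_cast at e00
      rw [EuclideanSpace.norm_eq, Fin.sum_univ_two]
      simp [e00]
    refine ⟨(⟨WithLp.toLp 2 ![h 0 0, h 0 1], by simpa using hn⟩, t), ?_⟩
    show emb (su _ _ _, t) = emb (⟨h, hh⟩, t)
    congr 2
    apply Subtype.ext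
    show !![h 0 0, h 0 1; -star (h 0 1), star (h 0 0)] = h
    ext i j
    fin_cases i <;> fin_cases j
    · rfl
    · rfl
    · exact a1.symm
    · exact a2.symm

lemma G0_compact : IsCompact (G0 : Set (Matrix.unitaryGroup (Fin 2 ⊕ Fin 2) ℂ)) := by
  rw [← psi_range]
  exact isCompact_range psi_continuous

lemma G0_connected : IsConnected (G0 : Set (Matrix.unitaryGroup (Fin 2 ⊕ Fin 2) ℂ)) := by
  rw [← psi_range]
  have h1 : ConnectedSpace (Metric.sphere (0 : EuclideanSpace ℂ (Fin 2)) 1) := by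
    rw [← isConnected_iff_connectedSpace]
    apply isConnected_sphere
    · rw [← Module.finrank_eq_rank, finrank_real_of_complex]
      simp
    · norm_num
  exact isConnected_range psi_continuous

/-! The two sheets of the level set. -/

/-- The function `|a₂|² - |b₂|²`. -/
def sheet (p : TA (Fin 2 ⊕ Fin 2)) : ℝ :=
  (p.1 (Sum.inr 0) * star (p.1 (Sum.inr 0)) + p.1 (Sum.inr 1) * star (p.1 (Sum.inr 1))
    - (p.2 (Sum.inr 0) * star (p.2 (Sum.inr 0)) + p.2 (Sum.inr 1) * star (p.2 (Sum.inr 1)))).re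

lemma sheet_continuous : Continuous sheet := by
  have h : Continuous fun p : (Fin 2 ⊕ Fin 2 → ℂ) × (Fin 2 ⊕ Fin 2 → ℂ) =>
    (p.1 (Sum.inr 0) * star (p.1 (Sum.inr 0)) + p.1 (Sum.inr 1) * star (p.1 (Sum.inr 1))
    - (p.2 (Sum.inr 0) * star (p.2 (Sum.inr 0)) + p.2 (Sum.inr 1) * star (p.2 (Sum.inr 1)))).re := by
    fun_prop
  exact h

lemma sheet_smul {u : Matrix.unitaryGroup (Fin 2 ⊕ Fin 2) ℂ} (hu : u ∈ G0)
    (p : TA (Fin 2 ⊕ Fin 2)) : sheet (actA u p) = sheet p := by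
  obtain ⟨h, t, h1, hdet, ht, hval⟩ := mem_G0 hu
  have h1' : hᴴ * h = 1 := _root_.mul_eq_one_comm.1 h1
  have e00 := congrFun (congrFun h1' 0) 0
  have e01 := congrFun (congrFun h1' 0) 1
  have e10 := congrFun (congrFun h1' 1) 0
  have e11 := congrFun (congrFun h1' 1) 1
  simp only [Matrix.mul_apply, Fin.sum_univ_two, Matrix.conjTranspose_apply, Matrix.one_apply_eq,
    Matrix.one_apply_ne (one_ne_zero (α := Fin 2)), Matrix.one_apply_ne (zero_ne_one (α := Fin 2))]
    at e00 e01 e10 e11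
  have hc : ∀ w : Fin 2 ⊕ Fin 2 → ℂ, ∀ i, (u.1 *ᵥ w) (Sum.inr i)
      = h i 0 * w (Sum.inr 0) + h i 1 * w (Sum.inr 1) := by
    intro w i
    rw [hval]
    simp [Matrix.mulVec, dotProduct, Fintype.sum_sum_type]
  have hc2 : ∀ i, (p.2 ᵥ* (u⁻¹).1) (Sum.inr i)
      = p.2 (Sum.inr 0) * star (h i 0) + p.2 (Sum.inr 1) * star (h i 1) := by
    intro i
    have h3 : (u⁻¹).1 = (u.1)ᴴ := rfl
    rw [h3, hval]
    simp [Matrix.vecMul, dotProduct, Fintype.sum_sum_type, Matrix.fromBlocks_conjTranspose]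
  show ((u.1 *ᵥ p.1) (Sum.inr 0) * star ((u.1 *ᵥ p.1) (Sum.inr 0))
    + (u.1 *ᵥ p.1) (Sum.inr 1) * star ((u.1 *ᵥ p.1) (Sum.inr 1))
    - ((p.2 ᵥ* (u⁻¹).1) (Sum.inr 0) * star ((p.2 ᵥ* (u⁻¹).1) (Sum.inr 0))
    + (p.2 ᵥ* (u⁻¹).1) (Sum.inr 1) * star ((p.2 ᵥ* (u⁻¹).1) (Sum.inr 1)))).re = sheet p
  rw [hc, hc, hc2, hc2, sheet]
  simp only [star_add, star_mul', star_star]
  congr 1
  linear_combination (p.1 (Sum.inr 0) * star (p.1 (Sum.inr 0))
      - p.2 (Sum.inr 0) * star (p.2 (Sum.inr 0))) * e00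
    + (p.1 (Sum.inr 1) * star (p.1 (Sum.inr 1)) - p.2 (Sum.inr 1) * star (p.2 (Sum.inr 1))) * e11
    + (p.1 (Sum.inr 1) * star (p.1 (Sum.inr 0)) - p.2 (Sum.inr 0) * star (p.2 (Sum.inr 1))) * e01
    + (p.1 (Sum.inr 0) * star (p.1 (Sum.inr 1)) - p.2 (Sum.inr 1) * star (p.2 (Sum.inr 0))) * e10

/-- A point of the level set with `b = 0`. -/
def ptA : TA (Fin 2 ⊕ Fin 2) := (Sum.elim ![1, 0] ![0, 1], Sum.elim ![0, 0] ![0, 0])

/-- A point of the level set with `a₂ = 0` and `b₁ = 0`. -/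
def ptB : TA (Fin 2 ⊕ Fin 2) := (Sum.elim ![1, 0] ![0, 0], Sum.elim ![0, 0] ![1, 0])

lemma ptA_mem : ptA ∈ level G0 xi := by
  intro X hX
  obtain ⟨h1, h2, h3⟩ := lieAlg_rel hX
  have h2' := congrArg Complex.im h2
  have h3' := congrArg Complex.im h3
  simp only [Complex.add_im, Complex.zero_im] at h2' h3'
  apply Prod.ext
  · simp [muR, ptA, xi, dotProduct, Matrix.mulVec, Fintype.sum_sum_type, Fin.sum_univ_two,
      Matrix.trace, Complex.mul_re, (h1 1 0).1, (h1 0 1).2]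
    linarith
  · simp [muC, ptA, xi, dotProduct, Matrix.mulVec, Fintype.sum_sum_type, Fin.sum_univ_two]

lemma ptB_mem : ptB ∈ level G0 xi := by
  intro X hX
  obtain ⟨h1, h2, h3⟩ := lieAlg_rel hX
  have h2' := congrArg Complex.im h2
  have h3' := congrArg Complex.im h3
  simp only [Complex.add_im, Complex.zero_im] at h2' h3'
  apply Prod.ext
  · simp [muR, ptB, xi, dotProduct, Matrix.mulVec, Fintype.sum_sum_type, Fin.sum_univ_two,
      Matrix.trace, Complex.mul_re]
    linarith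
  · simp [muC, ptB, xi, dotProduct, Matrix.mulVec, Fintype.sum_sum_type, Fin.sum_univ_two,
      (h1 0 0).1]

lemma sheet_ne_zero (s : TA (Fin 2 ⊕ Fin 2)) (hs : s ∈ level G0 xi) : sheet s ≠ 0 := by
  obtain ⟨-, h | h⟩ := level_dichotomy hs
  · rw [sheet, h.2.2, h.1, h.2.1]
    simp
  · rw [sheet, h.2.2, h.1, h.2.1]
    simp

/-- The straight path between two points of `T^*A`. -/
def seg (p q : TA (Fin 2 ⊕ Fin 2)) : C(ℝ, TA (Fin 2 ⊕ Fin 2)) where
  toFun t := (fun i => (1 - t) * p.1 i + t * q.1 i, fun i => (1 - t) * p.2 i + t * q.2 i)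
  continuous_toFun := by
    have h : Continuous fun t : ℝ => ((fun i => (1 - (t : ℂ)) * p.1 i + t * q.1 i,
      fun i => (1 - (t : ℂ)) * p.2 i + t * q.2 i) : (Fin 2 ⊕ Fin 2 → ℂ) × (Fin 2 ⊕ Fin 2 → ℂ)) := by
      fun_prop
    exact h

/-- `EU ι` is not empty. -/
lemma EU_nonempty : Nonempty (EU (Fin 2 ⊕ Fin 2)) := by
  let k : Fin 2 ⊕ Fin 2 → ℕ := fun i => (Fintype.equivFin (Fin 2 ⊕ Fin 2) i : ℕ)
  have hk : Function.Injective k := fun i j h =>
    (Fintype.equivFin (Fin 2 ⊕ Fin 2)).injective (Fin.ext h)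
  refine ⟨⟨fun n i => if n = k i then 1 else 0, ?_⟩⟩
  intro v hv
  funext j
  have h := hv (k j)
  rw [dotProduct, Finset.sum_eq_single j] at h
  · simpa using h
  · intro i _ hij
    show (if k j = k i then (1 : ℂ) else 0) * v i = 0
    rw [if_neg fun h' => hij (hk h').symm, zero_mul]
  · intro h'
    exact absurd (Finset.mem_univ j) h'

lemma kirwan_not_surjective : ¬ Function.Surjective (kirwan G0 xi 0) := by
  have hx : sheet ptB < 0 := by simp [sheet, ptB]
  have hy : 0 < sheet ptA := by simp [sheet, ptA]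
  have h0 : seg ptB ptA 0 = ptB := by
    apply Prod.ext <;> funext i
    · show (1 - ((0 : ℝ) : ℂ)) * ptB.1 i + ((0 : ℝ) : ℂ) * ptA.1 i = ptB.1 i
      simp
    · show (1 - ((0 : ℝ) : ℂ)) * ptB.2 i + ((0 : ℝ) : ℂ) * ptA.2 i = ptB.2 i
      simp
  have h1 : seg ptB ptA 1 = ptA := by
    apply Prod.ext <;> funext i
    · show (1 - ((1 : ℝ) : ℂ)) * ptB.1 i + ((1 : ℝ) : ℂ) * ptA.1 i = ptA.1 i
      simp
    · show (1 - ((1 : ℝ) : ℂ)) * ptB.2 i + ((1 : ℝ) : ℂ) * ptA.2 i = ptA.2 i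
      simp
  exact not_surjective_zero G0 (level G0 xi) sheet sheet_continuous
    (fun g hg p => sheet_smul hg p) sheet_ne_zero ptB ptA ptB_mem ptA_mem hx hy
    (seg ptB ptA) h0 h1 (Classical.choice EU_nonempty)

theorem result : ∃ (ι : Type) (_ : Fintype ι) (_ : DecidableEq ι)
    (G : Subgroup (Matrix.unitaryGroup ι ℂ)) (ξ : Matrix ι ι ℂ → ℝ × ℂ),
    IsCompact (G : Set (Matrix.unitaryGroup ι ℂ)) ∧
    IsConnected (G : Set (Matrix.unitaryGroup ι ℂ)) ∧
    IsCentral G ξ ∧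
    (level G ξ).Nonempty ∧
    (∀ p ∈ level G ξ, ∀ g ∈ G, actA g p = p → g = 1) ∧
    ¬ Function.Surjective (kirwan G ξ 0) :=
  ⟨Fin 2 ⊕ Fin 2, _, _, G0, xi, G0_compact, G0_connected, xi_central, ⟨ptA, ptA_mem⟩,
    fun _ hp _ hg h => level_free hp hg h, kirwan_not_surjective⟩

end

end Pool.Agent.Results.MP_8779dd_gt.KirwanDegreeZero
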